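import Pool.Agent.Helper96.PB.Defs
import Pool.Agent.Helper74.NQ.Pairs

/-!
# PB, piece B1: the cylinder lemma in one orbit, two places for every window
-/

set_option autoImplicit false
set_option linter.unusedSectionVars false

namespace Pool.Agent.Helper98.PB

open Finset Pool.Agent.Helper99.NQ Pool.Agent.Helper96.PB
open Pool.Agent.Helper96.PH (CB)
open Pool.Agent.Helper74.NQ (lam_add lam_flip_add lam_shift shift)

section abstract

theorem card_Y (W : Type) [Fintype W] (n w : ℕ) :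
    Fintype.card (Fin (w + 1) × Fin 2 → Fin n → Fin 1 → W) = (Fintype.card W ^ n) ^ (2 * (w + 1)) := by
  rw [Fintype.card_fun, Fintype.card_fun, Fintype.card_fun, Fintype.card_prod, Fintype.card_fin, Fintype.card_fin,
    Fintype.card_fin, Fintype.card_fin, pow_one, mul_comm (w + 1) 2]

theorem card_filt {α : Type} [Fintype α] (p : α → Prop) [DecidablePred p] :
    Nat.card {x // p x} = (univ.filter p).card := by
  rw [Nat.card_eq_fintype_card, Fintype.card_subtype]

/-- The cylinder lemma for any type of players and any index type. -/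
theorem cb_gen {B G ι ι' P : Type} [AddCommGroup B] [Fintype B] [AddCommGroup G] [Fintype G] [Fintype ι] [Fintype ι']
    [Fintype P] {γ : B → G} {W : ℕ} (e : ι' ≃ ι) (hP : Fintype.card P = W + 1) {ε : ℝ} (h : CB γ ι' W ε) (x : ι → B)
    (C : P → Set (P → ι → B)) (hC : ∀ p y y', (∀ q, q ≠ p → y q = y' q) → y ∈ C p → y' ∈ C p) (a : G) :
    (Nat.card {y : P → ι → B // (∀ p, y ∈ C p) ∧ ∑ c, γ (x c + ∑ p, y p c) = a} : ℝ) ≤
      Nat.card {y : P → ι → B // ∀ p, y ∈ C p} / Nat.card G + ε * Nat.card (P → ι → B) := by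
  classical
  have hcard : Fintype.card (Fin (W + 1)) = Fintype.card P := by rw [hP, Fintype.card_fin]
  let φ : Fin (W + 1) ≃ P := Fintype.equivOfCardEq hcard
  let Φ : (Fin (W + 1) → ι' → B) ≃ (P → ι → B) := Equiv.arrowCongr φ (Equiv.arrowCongr e (Equiv.refl _))
  have hΦ : ∀ y p c, Φ y p c = y (φ.symm p) (e.symm c) := fun y p c => rfl
  have h1 := h (fun c => x (e c)) (fun l => {y | Φ y ∈ C (φ l)}) (by
    intro l y z hy
    refine hC (φ l) (Φ y) _ ?_ hy
    intro q hq
    funext c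
    rw [hΦ, hΦ, Function.update_of_ne]
    intro h2
    exact hq (by rw [← h2, Equiv.apply_symm_apply])) a
  have e0 : ∀ y : Fin (W + 1) → ι' → B, (∀ l, y ∈ (fun l => {y | Φ y ∈ C (φ l)}) l) ↔ ∀ p, Φ y ∈ C p := by
    intro y
    constructor
    · intro h2 p
      have h3 : Φ y ∈ C (φ (φ.symm p)) := h2 (φ.symm p)
      rwa [Equiv.apply_symm_apply] at h3
    · intro h2 l
      exact h2 (φ l)
  have e4 : ∀ y : Fin (W + 1) → ι' → B, ∑ c, γ (x c + ∑ p, Φ y p c) = ∑ c, γ (x (e c) + ∑ l, y l c) := by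
    intro y
    refine (Fintype.sum_equiv e _ _ fun c => ?_).symm
    congr 2
    exact Fintype.sum_equiv φ _ _ fun l => by rw [hΦ, Equiv.symm_apply_apply, Equiv.symm_apply_apply]
  have e1 : Nat.card {y : Fin (W + 1) → ι' → B // ∀ l, y ∈ (fun l => {y | Φ y ∈ C (φ l)}) l} =
      Nat.card {y : P → ι → B // ∀ p, y ∈ C p} := Nat.card_congr (Φ.subtypeEquiv e0)
  have e2 : Nat.card {y : Fin (W + 1) → ι' → B // (∀ l, y ∈ (fun l => {y | Φ y ∈ C (φ l)}) l) ∧
      ∑ c, γ (x (e c) + ∑ l, y l c) = a} =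
      Nat.card {y : P → ι → B // (∀ p, y ∈ C p) ∧ ∑ c, γ (x c + ∑ p, y p c) = a} := by
    refine Nat.card_congr (Φ.subtypeEquiv fun y => ?_)
    rw [e0, e4]
  have e3 : Nat.card (Fin (W + 1) → ι' → B) = Nat.card (P → ι → B) := Nat.card_congr Φ
  rw [e2, e1, e3] at h1
  exact h1

/-- Averages for two properties. -/
theorem avg2 {Γ Y : Type} [AddGroup Γ] [Fintype Γ] [Fintype Y] [Nonempty Y] (τ : Y → Γ) (P Q : Γ → Prop)
    [DecidablePred P] [DecidablePred Q] (c δ : ℝ)
    (h : ∀ b, ((univ.filter (fun y => P (b + τ y))).card : ℝ) ≤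
      (univ.filter (fun y => Q (b + τ y))).card / c + δ * Fintype.card Y) :
    ((univ.filter P).card : ℝ) ≤ (univ.filter Q).card / c + δ * Fintype.card Γ := by
  have h1 : ∀ (P : Γ → Prop) [DecidablePred P],
      ∑ b, ((univ.filter (fun y => P (b + τ y))).card : ℝ) = Fintype.card Y * (univ.filter P).card := by
    intro P _
    have h0 : ∀ y, (univ.filter (fun b => P (b + τ y))).card = (univ.filter P).card := by
      intro y
      refine card_bij' (fun b _ => b + τ y) (fun b _ => b - τ y) ?_ ?_ ?_ ?_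
      · intro b hb
        rw [mem_filter] at hb ⊢
        exact ⟨mem_univ _, hb.2⟩
      · intro b hb
        rw [mem_filter] at hb ⊢
        refine ⟨mem_univ _, ?_⟩
        rw [sub_add_cancel]
        exact hb.2
      · intro b _
        exact add_sub_cancel_right b (τ y)
      · intro b _
        exact sub_add_cancel b (τ y)
    have h2 : ∑ b, (univ.filter (fun y => P (b + τ y))).card = ∑ y, (univ.filter (fun b => P (b + τ y))).card := by
      simp_rw [card_filter]
      exact sum_comm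
    simp_rw [h0] at h2
    rw [sum_const, card_univ, smul_eq_mul] at h2
    exact_mod_cast h2
  have h4 : (0 : ℝ) < Fintype.card Y := Nat.cast_pos.2 Fintype.card_pos
  have h3 := sum_le_sum fun b (_ : b ∈ (univ : Finset Γ)) => h b
  rw [h1, sum_add_distrib, ← sum_div, h1, sum_const, card_univ, nsmul_eq_mul] at h3
  refine le_of_mul_le_mul_left ?_ h4
  calc (Fintype.card Y : ℝ) * (univ.filter P).card ≤ _ := h3
    _ = Fintype.card Y * ((univ.filter Q).card / c + δ * Fintype.card Γ) := by ring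

end abstract

section net

variable {n D m w : ℕ} [NeZero m] {F B G : Type} [Field F] [Fintype F] [AddCommGroup B] [Module F B] [Fintype B]

open Classical in
/-- The amounts: one at the nodes in `K`. -/
noncomputable def one (F : Type) [Field F] (K : Finset (Fin n)) : Fin n → Fin 1 → F := fun u _ => if u ∈ K then 1 else 0

theorem one_ne {K : Finset (Fin n)} {u : Fin n} {j : Fin 1} : one F K u j ≠ 0 ↔ u ∈ K := by
  classical
  unfold one
  by_cases h : u ∈ K <;> simp [h]

theorem one_ne' {K : Finset (Fin n)} {u : Fin n} : one F K u ≠ 0 ↔ u ∈ K := by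
  constructor
  · intro h
    obtain ⟨j, hj⟩ := Function.ne_iff.1 h
    exact one_ne.1 hj
  · intro h h2
    exact (one_ne (j := 0)).2 h (by rw [h2]; rfl)

/-- The change made by the player `p`. -/
noncomputable def chg (g : Fin D → Equiv.Perm (Fin n)) (hh : Fin (w + 1) → Fin n → Fin D × Fin m) (K : Finset (Fin n))
    (p : Fin (w + 1) × Fin 2) (b : Fin n → Fin 1 → Word D m B) : Ch n D m F B := flip g (hh p.1) b (one F K)

theorem chg_ne_zero {g : Fin D → Equiv.Perm (Fin n)} {hh : Fin (w + 1) → Fin n → Fin D × Fin m} {K : Finset (Fin n)}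
    {p : Fin (w + 1) × Fin 2} {b : Fin n → Fin 1 → Word D m B} {q : Fin n × Fin m} {l : Word D m B}
    (h : (chg g hh K p b : Ch n D m F B) q l ≠ 0) : ∃ u ∈ K, pos g (hh p.1) u = q ∧ b u 0 = l := by
  classical
  by_contra h2
  push Not at h2
  refine h ?_
  show ∑ u, ∑ j, (if pos g (hh p.1) u = q ∧ b u j = l then one F K u j else 0) = 0
  refine sum_eq_zero fun u _ => sum_eq_zero fun j _ => ?_
  split_ifs with h3
  · by_contra h4
    have h5 := one_ne.1 h4
    have hj : j = 0 := Subsingleton.elim _ _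
    subst hj
    exact h2 u h5 h3.1 h3.2
  · rfl

/-- The configurations: an input and the places of all players. -/
abbrev Conf (n D m w : ℕ) (F B : Type) := Ch n D m F B × (Fin (w + 1) × Fin 2 → Fin n → Fin 1 → Word D m B)

open Classical in
/-- The input without the changes of the players of the window `j`. -/
noncomputable def xj (g : Fin D → Equiv.Perm (Fin n)) (hh : Fin (w + 1) → Fin n → Fin D × Fin m) (K : Finset (Fin n))
    (j : Fin (w + 1)) (c : Conf n D m w F B) : Ch n D m F B :=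
  c.1 + ∑ p ∈ univ.filter (fun p : Fin (w + 1) × Fin 2 => p.1 ≠ j), chg g hh K p (c.2 p)

/-- The input with all changes. -/
noncomputable def xx (g : Fin D → Equiv.Perm (Fin n)) (hh : Fin (w + 1) → Fin n → Fin D × Fin m) (K : Finset (Fin n))
    (c : Conf n D m w F B) : Ch n D m F B := c.1 + ∑ p, chg g hh K p (c.2 p)

open Classical in
theorem xx_eq (g : Fin D → Equiv.Perm (Fin n)) (hh : Fin (w + 1) → Fin n → Fin D × Fin m) (K : Finset (Fin n))
    (j : Fin (w + 1)) (c : Conf n D m w F B) :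
    xx g hh K c = xj g hh K j c + ∑ p ∈ univ.filter (fun p : Fin (w + 1) × Fin 2 => p.1 = j), chg g hh K p (c.2 p) := by
  unfold xx xj
  rw [add_assoc]
  congr 1
  have h1 := sum_filter_add_sum_filter_not (univ : Finset (Fin (w + 1) × Fin 2)) (fun p => p.1 = j)
    (fun p => (chg g hh K p (c.2 p) : Ch n D m F B))
  rw [← h1, add_comm]

theorem xj_congr (g : Fin D → Equiv.Perm (Fin n)) (hh : Fin (w + 1) → Fin n → Fin D × Fin m) (K : Finset (Fin n))
    (j : Fin (w + 1)) (c c' : Conf n D m w F B) (h1 : c.1 = c'.1) (h2 : ∀ p, p.1 ≠ j → c.2 p = c'.2 p) :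
    xj g hh K j c = xj g hh K j c' := by
  classical
  unfold xj
  rw [h1]
  congr 1
  refine sum_congr rfl fun p hp => ?_
  rw [h2 p (mem_filter.1 hp).2]

open Classical in
/-- The change between `xj` and `xx`. -/
theorem xx_ne (g : Fin D → Equiv.Perm (Fin n)) (hh : Fin (w + 1) → Fin n → Fin D × Fin m) (K : Finset (Fin n))
    (j : Fin (w + 1)) (c : Conf n D m w F B) {q : Fin n × Fin m} {l : Word D m B}
    (h : xx g hh K c q l ≠ xj g hh K j c q l) : ∃ i : Fin 2, ∃ u ∈ K, pos g (hh j) u = q ∧ c.2 (j, i) u 0 = l := by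
  by_contra h2
  push Not at h2
  refine h ?_
  rw [xx_eq g hh K j c, Pi.add_apply, Pi.add_apply]
  have h3 : (∑ p ∈ univ.filter (fun p : Fin (w + 1) × Fin 2 => p.1 = j), (chg g hh K p (c.2 p) : Ch n D m F B)) q l =
      0 := by
    rw [Finset.sum_apply, Finset.sum_apply]
    refine sum_eq_zero fun p hp => ?_
    have h4 : p.1 = j := (mem_filter.1 hp).2
    by_contra h5
    obtain ⟨u, hu, h6, h7⟩ := chg_ne_zero h5
    obtain ⟨p1, p2⟩ := p
    have h4' : p1 = j := h4
    subst h4'
    exact h2 p2 u hu h6 h7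
  rw [h3, add_zero]

variable (g : Fin D → Equiv.Perm (Fin n)) (hh : Fin (w + 1) → Fin n → Fin D × Fin m) (K : Finset (Fin n)) (h : ℕ)
    (E : Fin (w + 1) → Finset (Ch n D m F B)) (U : Fin (w + 1) → Ch n D m F B → Fin n → Finset (Word D m B))

/-- The condition of the window `j` at the input `x`. -/
def Cj (j : Fin (w + 1)) (x : Ch n D m F B) (Y : Fin (w + 1) × Fin 2 → Fin n → Fin 1 → Word D m B) : Prop :=
  x ∈ E j ∧ ∀ i : Fin 2, ∀ u ∈ K, Y (j, i) u 0 ∈ U j x u

theorem cj_iff (cl : ∀ j, ∀ x ∈ E j, ∀ x', (∀ p l, x' p l ≠ x p l → ∃ u ∈ K, pos g (hh j) u = p ∧ l ∈ U j x u) →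
      x' ∈ E j ∧ ∀ u ∈ K, U j x' u = U j x u) (j : Fin (w + 1)) (c : Conf n D m w F B) :
    Cj K E U j (xx g hh K c) c.2 ↔ Cj K E U j (xj g hh K j c) c.2 := by
  constructor
  · rintro ⟨h1, h2⟩
    obtain ⟨h3, h4⟩ := cl j _ h1 (xj g hh K j c) (by
      intro p l hpl
      obtain ⟨i, u, hu, h5, h6⟩ := xx_ne g hh K j c (Ne.symm hpl)
      refine ⟨u, hu, h5, ?_⟩
      rw [← h6]
      exact h2 i u hu)
    exact ⟨h3, fun i u hu => by rw [h4 u hu]; exact h2 i u hu⟩
  · rintro ⟨h1, h2⟩
    obtain ⟨h3, h4⟩ := cl j _ h1 (xx g hh K c) (by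
      intro p l hpl
      obtain ⟨i, u, hu, h5, h6⟩ := xx_ne g hh K j c hpl
      refine ⟨u, hu, h5, ?_⟩
      rw [← h6]
      exact h2 i u hu)
    exact ⟨h3, fun i u hu => by rw [h4 u hu]; exact h2 i u hu⟩

/-- The number of places. -/
theorem card_places (x : Ch n D m F B) (hU : ∀ j, ∀ u ∈ K, (U j x u).card = h) :
    Nat.card {Y : Fin (w + 1) × Fin 2 → Fin n → Fin 1 → Word D m B // ∀ j, ∀ i : Fin 2, ∀ u ∈ K, Y (j, i) u 0 ∈ U j x u} =
      (h ^ K.card * Fintype.card (Word D m B) ^ (n - K.card)) ^ (2 * (w + 1)) := by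
  classical
  have h1 : Nat.card {Y : Fin (w + 1) × Fin 2 → Fin n → Fin 1 → Word D m B //
      ∀ j, ∀ i : Fin 2, ∀ u ∈ K, Y (j, i) u 0 ∈ U j x u} =
      (Fintype.piFinset (fun p : Fin (w + 1) × Fin 2 => Fintype.piFinset (fun u : Fin n =>
        Fintype.piFinset (fun _ : Fin 1 => if u ∈ K then U p.1 x u else univ)))).card := by
    rw [card_filt]
    congr 1
    ext Y
    rw [mem_filter]
    constructor
    · rintro ⟨-, h2⟩
      rw [Fintype.mem_piFinset]
      intro p
      rw [Fintype.mem_piFinset]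
      intro u
      rw [Fintype.mem_piFinset]
      intro j
      have hj : j = 0 := Subsingleton.elim _ _
      subst hj
      split_ifs with hu
      · exact h2 p.1 p.2 u hu
      · exact mem_univ _
    · intro h2
      refine ⟨mem_univ _, fun j i u hu => ?_⟩
      have h3 := Fintype.mem_piFinset.1 (Fintype.mem_piFinset.1 (Fintype.mem_piFinset.1 h2 (j, i)) u) 0
      rw [if_pos hu] at h3
      exact h3
  rw [h1, Fintype.card_piFinset]
  have h2 : ∀ p : Fin (w + 1) × Fin 2, (Fintype.piFinset (fun u : Fin n =>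
        Fintype.piFinset (fun _ : Fin 1 => if u ∈ K then U p.1 x u else univ))).card =
      h ^ K.card * Fintype.card (Word D m B) ^ (n - K.card) := by
    intro p
    rw [Fintype.card_piFinset]
    have h3 : ∀ u : Fin n, (Fintype.piFinset (fun _ : Fin 1 => if u ∈ K then U p.1 x u else univ)).card =
        if u ∈ K then h else Fintype.card (Word D m B) := by
      intro u
      rw [Fintype.card_piFinset, prod_const, card_univ, Fintype.card_fin, pow_one]
      split_ifs with hu
      · exact hU p.1 u hu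
      · exact card_univ
    rw [prod_congr rfl fun u _ => h3 u, prod_ite, prod_const, prod_const]
    congr 2
    · rw [filter_mem_eq_inter, univ_inter]
    · rw [filter_not, filter_mem_eq_inter, univ_inter, ← compl_eq_univ_sdiff, card_compl, Fintype.card_fin]
  rw [prod_congr rfl fun p _ => h2 p, prod_const, card_univ, Fintype.card_prod, Fintype.card_fin, Fintype.card_fin,
    mul_comm (w + 1) 2]

/-- The number of configurations. -/
theorem card_conf (hU : ∀ j, ∀ x ∈ E j, ∀ u ∈ K, (U j x u).card = h) (R : Ch n D m F B → Prop) :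
    Nat.card {c : Conf n D m w F B // (∀ j, Cj K E U j (xx g hh K c) c.2) ∧ R (xx g hh K c)} =
      Nat.card {x : Ch n D m F B // (∀ j, x ∈ E j) ∧ R x} *
        (h ^ K.card * Fintype.card (Word D m B) ^ (n - K.card)) ^ (2 * (w + 1)) := by
  classical
  let e : Conf n D m w F B ≃ Conf n D m w F B :=
    { toFun := fun c => (xx g hh K c, c.2)
      invFun := fun c => (c.1 - ∑ p, chg g hh K p (c.2 p), c.2)
      left_inv := fun c => Prod.ext (by
        show xx g hh K c - ∑ p, chg g hh K p (c.2 p) = c.1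
        unfold xx
        exact add_sub_cancel_right _ _) rfl
      right_inv := fun c => Prod.ext (by
        show xx g hh K (c.1 - ∑ p, chg g hh K p (c.2 p), c.2) = c.1
        unfold xx
        exact sub_add_cancel _ _) rfl }
  have e1 : {c : Conf n D m w F B // (∀ j, Cj K E U j (xx g hh K c) c.2) ∧ R (xx g hh K c)} ≃
      {c : Conf n D m w F B // (∀ j, Cj K E U j c.1 c.2) ∧ R c.1} := e.subtypeEquiv fun c => Iff.rfl
  have e2 : {c : Conf n D m w F B // (∀ j, Cj K E U j c.1 c.2) ∧ R c.1} ≃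
      Σ x : {x : Ch n D m F B // (∀ j, x ∈ E j) ∧ R x},
        {Y : Fin (w + 1) × Fin 2 → Fin n → Fin 1 → Word D m B // ∀ j, ∀ i : Fin 2, ∀ u ∈ K, Y (j, i) u 0 ∈ U j x.1 u} :=
    { toFun := fun c => ⟨⟨c.1.1, fun j => (c.2.1 j).1, c.2.2⟩, c.1.2, fun j => (c.2.1 j).2⟩
      invFun := fun c => ⟨(c.1.1, c.2.1), fun j => ⟨c.1.2.1 j, c.2.2 j⟩, c.1.2.2⟩
      left_inv := fun c => rfl
      right_inv := fun c => rfl }
  have hfin : Fintype {x : Ch n D m F B // (∀ j, x ∈ E j) ∧ R x} := Fintype.ofFinite _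
  have hfin2 : ∀ x : {x : Ch n D m F B // (∀ j, x ∈ E j) ∧ R x}, Finite
      {Y : Fin (w + 1) × Fin 2 → Fin n → Fin 1 → Word D m B // ∀ j, ∀ i : Fin 2, ∀ u ∈ K, Y (j, i) u 0 ∈ U j x.1 u} :=
    fun x => Subtype.finite
  rw [Nat.card_congr e1, Nat.card_congr e2, Nat.card_sigma]
  have h3 : ∀ x : {x : Ch n D m F B // (∀ j, x ∈ E j) ∧ R x}, Nat.card
      {Y : Fin (w + 1) × Fin 2 → Fin n → Fin 1 → Word D m B // ∀ j, ∀ i : Fin 2, ∀ u ∈ K, Y (j, i) u 0 ∈ U j x.1 u} =
      (h ^ K.card * Fintype.card (Word D m B) ^ (n - K.card)) ^ (2 * (w + 1)) := by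
    intro x
    exact card_places K h U x.1 fun j u hu => hU j x.1 (x.2.1 j) u hu
  rw [sum_congr rfl fun x _ => h3 x, sum_const, smul_eq_mul, card_univ, ← Nat.card_eq_fintype_card]

theorem lam_sum {ι : Type} (s : Finset ι) (x : ι → Ch n D m F B) (v : Fin n × Fin m) :
    lam g (∑ i ∈ s, x i) v = ∑ i ∈ s, lam g (x i) v := by
  classical
  induction s using Finset.induction_on with
  | empty =>
    rw [sum_empty, sum_empty]
    have h1 := lam_add g (0 : Ch n D m F B) 0 v
    rw [add_zero] at h1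
    exact left_eq_add.1 h1
  | insert a s ha ih => rw [sum_insert ha, sum_insert ha, lam_add, ih]

open Classical in
/-- Extension by zero. -/
noncomputable def ext (K : Finset (Fin n)) (y : {u // u ∈ K} × Fin m → B) : Fin n × Fin m → B :=
  fun v => if hv : v.1 ∈ K then y (⟨v.1, hv⟩, v.2) else 0

/-- The moves of the players. -/
noncomputable def mv (y : Fin (w + 1) × Fin 2 → {u // u ∈ K} × Fin m → B) : Conf n D m w F B :=
  (0, fun p => shift (hh p.1) (one F K) (ext K (y p)))

theorem lam_xx_mv (b : Conf n D m w F B) (y : Fin (w + 1) × Fin 2 → {u // u ∈ K} × Fin m → B) (v : Fin n × Fin m) :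
    lam g (xx g hh K (b + mv hh K y)) v = lam g (xx g hh K b) v + ∑ p, ext K (y p) v := by
  classical
  unfold xx
  rw [lam_add, lam_add, lam_sum, lam_sum, add_assoc]
  have h1 : (b + mv hh K y).1 = b.1 := by
    show b.1 + 0 = b.1
    rw [add_zero]
  rw [h1]
  congr 1
  rw [← sum_add_distrib]
  refine sum_congr rfl fun p _ => ?_
  unfold chg
  show lam g (flip g (hh p.1) (b.2 p + shift (hh p.1) (one F K) (ext K (y p))) (one F K)) v = _
  rw [lam_flip_add]
  congr 1
  obtain ⟨u, t⟩ := v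
  rw [lam_shift]
  by_cases hu : u ∈ K
  · rw [if_pos (one_ne'.2 hu)]
  · rw [if_neg fun h3 => hu (one_ne'.1 h3)]
    unfold ext
    rw [dif_neg hu]

/-- The other player of the window. -/
def oth (i : Fin 2) : Fin 2 := 1 - i

theorem oth_ne (i : Fin 2) : oth i ≠ i := by
  fin_cases i <;> decide

theorem oth_oth (i : Fin 2) : oth (oth i) = i := by
  fin_cases i <;> decide

open Classical in
theorem cyl_aux [AddCommGroup G] [Fintype G] (t0 : Fin n × Fin m → B) (h0 : 0 < h)
    (hU : ∀ j, ∀ x ∈ E j, ∀ u ∈ K, (U j x u).card = h)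
    (cl : ∀ j, ∀ x ∈ E j, ∀ x', (∀ p l, x' p l ≠ x p l → ∃ u ∈ K, pos g (hh j) u = p ∧ l ∈ U j x u) →
      x' ∈ E j ∧ ∀ u ∈ K, U j x' u = U j x u)
    (γ : B → G) {δ : ℝ} (hγ : CB γ (Fin K.card × Fin m) (2 * w + 1) δ) (z : G) :
    ((univ.filter (fun x : Ch n D m F B => (∀ j, x ∈ E j) ∧ ∑ v, γ (t0 v + lam g x v) = z)).card : ℝ) ≤
      (univ.filter (fun x : Ch n D m F B => ∀ j, x ∈ E j)).card / Fintype.card G +
        δ * (1 / ((h : ℝ) / Fintype.card (Word D m B))) ^ (2 * (w + 1) * K.card) * Nat.card (Ch n D m F B) := by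
  let f : Ch n D m F B → G := fun x => ∑ v, γ (t0 v + lam g x v)
  let P : Conf n D m w F B → Prop := fun c => (∀ j, Cj K E U j (xx g hh K c) c.2) ∧ f (xx g hh K c) = z
  let Q : Conf n D m w F B → Prop := fun c => ∀ j, Cj K E U j (xx g hh K c) c.2
  -- the count in the set of all configurations
  have key : ((univ.filter P).card : ℝ) ≤ (univ.filter Q).card / Fintype.card G +
      δ * Fintype.card (Conf n D m w F B) := by
    refine avg2 (fun y : Fin (w + 1) × Fin 2 → {u // u ∈ K} × Fin m → B => mv hh K y) P Q (Fintype.card G) δ ?_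
    intro b
    let C : Fin (w + 1) × Fin 2 → Set (Fin (w + 1) × Fin 2 → {u // u ∈ K} × Fin m → B) := fun p =>
      {y | xj g hh K p.1 (b + mv hh K y) ∈ E p.1 ∧
        ∀ u ∈ K, (b + mv hh K y).2 (p.1, oth p.2) u 0 ∈ U p.1 (xj g hh K p.1 (b + mv hh K y)) u}
    have hC : ∀ p y y', (∀ q, q ≠ p → y q = y' q) → y ∈ C p → y' ∈ C p := by
      intro p y y' hyy hy
      have h1 : ∀ q, q ≠ p → (b + mv hh K y).2 q = (b + mv hh K y').2 q := by
        intro q hq
        show b.2 q + shift (hh q.1) (one F K) (ext K (y q)) = b.2 q + shift (hh q.1) (one F K) (ext K (y' q))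
        rw [hyy q hq]
      have h2 : xj g hh K p.1 (b + mv hh K y) = xj g hh K p.1 (b + mv hh K y') :=
        xj_congr g hh K p.1 _ _ rfl fun q hq => h1 q fun h3 => hq (by rw [h3])
      obtain ⟨h3, h4⟩ := hy
      refine ⟨by rw [← h2]; exact h3, fun u hu => ?_⟩
      rw [← h2, ← h1 _ fun h5 => oth_ne p.2 (congrArg Prod.snd h5)]
      exact h4 u hu
    have hCQ : ∀ y, (∀ p, y ∈ C p) ↔ Q (b + mv hh K y) := by
      intro y
      constructor
      · intro h1 j
        rw [cj_iff g hh K E U cl]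
        refine ⟨(h1 (j, 0)).1, fun i u hu => ?_⟩
        have h2 := (h1 (j, oth i)).2 u hu
        have h3 : ((j, oth i) : Fin (w + 1) × Fin 2).2 = oth i := rfl
        rw [h3, oth_oth] at h2
        exact h2
      · intro h1 p
        have h2 := (cj_iff g hh K E U cl p.1 _).1 (h1 p.1)
        exact ⟨h2.1, fun u hu => h2.2 _ u hu⟩
    -- the result
    let x1 : {u // u ∈ K} × Fin m → B := fun c => t0 (c.1.1, c.2) + lam g (xx g hh K b) (c.1.1, c.2)
    let c0 : G := ∑ u ∈ Kᶜ, ∑ t, γ (t0 (u, t) + lam g (xx g hh K b) (u, t))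
    have hf : ∀ y, f (xx g hh K (b + mv hh K y)) = ∑ c, γ (x1 c + ∑ p, y p c) + c0 := by
      intro y
      show ∑ v, γ (t0 v + lam g (xx g hh K (b + mv hh K y)) v) = _
      rw [Fintype.sum_prod_type, ← sum_add_sum_compl K, Fintype.sum_prod_type]
      refine congrArg₂ (· + ·) ?_ ?_
      · rw [← sum_coe_sort K]
        refine sum_congr rfl fun u _ => sum_congr rfl fun t _ => ?_
        rw [lam_xx_mv, ← add_assoc]
        congr 2
        refine sum_congr rfl fun p _ => ?_
        unfold ext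
        rw [dif_pos u.2]
      · refine sum_congr rfl fun u hu => sum_congr rfl fun t _ => ?_
        rw [lam_xx_mv]
        have h1 : ∑ p, ext K (y p) (u, t) = 0 := by
          refine sum_eq_zero fun p _ => ?_
          unfold ext
          exact dif_neg (mem_compl.1 hu)
        rw [h1, add_zero]
    have h1 := cb_gen (P := Fin (w + 1) × Fin 2) (Equiv.prodCongr K.equivFin.symm (Equiv.refl (Fin m)))
      (by rw [Fintype.card_prod, Fintype.card_fin, Fintype.card_fin]; ring) hγ x1 C hC (z - c0)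
    have e1 : Nat.card {y : Fin (w + 1) × Fin 2 → {u // u ∈ K} × Fin m → B //
        (∀ p, y ∈ C p) ∧ ∑ c, γ (x1 c + ∑ p, y p c) = z - c0} =
        (univ.filter (fun y => P (b + mv hh K y))).card := by
      rw [card_filt]
      congr 1
      ext y
      rw [mem_filter, mem_filter, hCQ, eq_sub_iff_add_eq, ← hf]
    have e2 : Nat.card {y : Fin (w + 1) × Fin 2 → {u // u ∈ K} × Fin m → B // ∀ p, y ∈ C p} =
        (univ.filter (fun y => Q (b + mv hh K y))).card := by
      rw [card_filt]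
      congr 1
      ext y
      rw [mem_filter, mem_filter, hCQ]
    rw [e1, e2, Nat.card_eq_fintype_card (α := G), Nat.card_eq_fintype_card] at h1
    exact h1
  -- from configurations to inputs
  have c1 := card_conf g hh K h E U hU (fun x => f x = z)
  have c2 := card_conf g hh K h E U hU (fun _ => True)
  set H : ℕ := (h ^ K.card * Fintype.card (Word D m B) ^ (n - K.card)) ^ (2 * (w + 1)) with hH
  have hL : 0 < Fintype.card (Word D m B) := Fintype.card_pos_iff.2 ⟨0⟩
  have hH0 : (0 : ℝ) < H := by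
    rw [hH]
    exact_mod_cast Nat.pow_pos (Nat.mul_pos (Nat.pow_pos h0) (Nat.pow_pos hL))
  have d1 : Nat.card {c : Conf n D m w F B // (∀ j, Cj K E U j (xx g hh K c) c.2) ∧ f (xx g hh K c) = z} =
      (univ.filter P).card := card_filt P
  have d2 : Nat.card {c : Conf n D m w F B // (∀ j, Cj K E U j (xx g hh K c) c.2) ∧ True} =
      (univ.filter Q).card := by
    rw [card_filt]
    congr 1
    ext c
    rw [mem_filter, mem_filter]
    exact ⟨fun h3 => ⟨h3.1, h3.2.1⟩, fun h3 => ⟨h3.1, h3.2, trivial⟩⟩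
  have d3 : Nat.card {x : Ch n D m F B // (∀ j, x ∈ E j) ∧ f x = z} =
      (univ.filter (fun x : Ch n D m F B => (∀ j, x ∈ E j) ∧ ∑ v, γ (t0 v + lam g x v) = z)).card :=
    card_filt (fun x : Ch n D m F B => (∀ j, x ∈ E j) ∧ ∑ v, γ (t0 v + lam g x v) = z)
  have d4 : Nat.card {x : Ch n D m F B // (∀ j, x ∈ E j) ∧ True} =
      (univ.filter (fun x : Ch n D m F B => ∀ j, x ∈ E j)).card := by
    rw [card_filt]
    congr 1
    ext c
    rw [mem_filter, mem_filter]
    exact ⟨fun h3 => ⟨h3.1, h3.2.1⟩, fun h3 => ⟨h3.1, h3.2, trivial⟩⟩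
  rw [d1, d3] at c1
  rw [d2, d4] at c2
  rw [c1, c2] at key
  set N1 := (univ.filter (fun x : Ch n D m F B => (∀ j, x ∈ E j) ∧ ∑ v, γ (t0 v + lam g x v) = z)).card with hN1
  set N2 := (univ.filter (fun x : Ch n D m F B => ∀ j, x ∈ E j)).card with hN2
  have hcard : Fintype.card (Conf n D m w F B) =
      Fintype.card (Ch n D m F B) * (Fintype.card (Word D m B) ^ n) ^ (2 * (w + 1)) := by
    rw [Fintype.card_prod, card_Y]
  have hKn : K.card ≤ n := (card_le_univ K).trans (le_of_eq (Fintype.card_fin n))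
  have hLr : (0 : ℝ) < Fintype.card (Word D m B) := Nat.cast_pos.2 hL
  have h0r : (0 : ℝ) < h := Nat.cast_pos.2 h0
  have hratio : ((Fintype.card (Word D m B) : ℝ) ^ n) ^ (2 * (w + 1)) =
      (1 / ((h : ℝ) / Fintype.card (Word D m B))) ^ (2 * (w + 1) * K.card) * H := by
    rw [hH, one_div_div, div_pow]
    push_cast
    have h5 : (Fintype.card (Word D m B) : ℝ) ^ n =
        (Fintype.card (Word D m B) : ℝ) ^ K.card * (Fintype.card (Word D m B) : ℝ) ^ (n - K.card) := by
      rw [← pow_add, Nat.add_sub_cancel' hKn]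
    rw [h5, mul_pow, mul_pow, ← pow_mul, ← pow_mul, mul_comm K.card]
    field_simp
    ring
  refine le_of_mul_le_mul_right ?_ hH0
  calc (N1 : ℝ) * H = ((N1 * H : ℕ) : ℝ) := by push_cast; ring
    _ ≤ ((N2 * H : ℕ) : ℝ) / Fintype.card G + δ * Fintype.card (Conf n D m w F B) := key
    _ = _ := by
        rw [hcard, Nat.card_eq_fintype_card]
        push_cast
        rw [hratio]
        ring

end net

open Classical in
/-- B1: the cylinder lemma in one orbit, two places for every window. -/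
theorem cyl_bound {n D m : ℕ} [NeZero m] {F B G : Type} [Field F] [Fintype F] [AddCommGroup B] [Module F B]
    [Fintype B] [AddCommGroup G] [Fintype G] {w : ℕ} (g : Fin D → Equiv.Perm (Fin n))
    (hh : Fin (w + 1) → Fin n → Fin D × Fin m) (t0 : Fin n × Fin m → B) (K : Finset (Fin n)) (h : ℕ) (h0 : 0 < h)
    (E : Fin (w + 1) → Finset (Ch n D m F B))
    (U : Fin (w + 1) → Ch n D m F B → Fin n → Finset (Word D m B))
    (hU : ∀ j, ∀ x ∈ E j, ∀ u ∈ K, (U j x u).card = h)
    (cl : ∀ j, ∀ x ∈ E j, ∀ x', (∀ p l, x' p l ≠ x p l → ∃ u ∈ K, pos g (hh j) u = p ∧ l ∈ U j x u) →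
      x' ∈ E j ∧ ∀ u ∈ K, U j x' u = U j x u)
    (γ : B → G) {δ : ℝ} (_hδ : 0 ≤ δ) (hγ : CB γ (Fin K.card × Fin m) (2 * w + 1) δ) (z : G) :
    ((univ.filter (fun x : Ch n D m F B => (∀ j, x ∈ E j) ∧ ∑ v, γ (t0 v + lam g x v) = z)).card : ℝ) ≤
      (univ.filter (fun x : Ch n D m F B => ∀ j, x ∈ E j)).card / Fintype.card G +
        δ * (1 / ((h : ℝ) / Fintype.card (Word D m B))) ^ (2 * (w + 1) * K.card) * Nat.card (Ch n D m F B) :=
  cyl_aux g hh K h E U t0 h0 hU cl γ hγ z

end Pool.Agent.Helper98.PB
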