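import Pool.Agent.Helper98.PB.Type
import Pool.Agent.Helper98.PB.Cyl

/-!
# PB, piece B2: the inputs of one type
-/

set_option autoImplicit false

namespace Pool.Agent.Helper98.PB

open Finset Pool.Agent.Helper19.NF Pool.Agent.Helper74.NW Pool.Agent.Helper99.NQ Pool.Agent.Helper96.PB
open Pool.Agent.Helper74.NE (fine fine_apply)
open Pool.Agent.Helper96.PH (Cut Det Greedy CB opn)

variable {n D m S : ℕ} [NeZero m] {F B G Z : Type} [Field F] [Fintype F] [AddCommGroup B] [Module F B] [Fintype B]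

/-- B2. -/
theorem type_bound [AddCommGroup G] [Fintype G] (P : NProg (B × Word D m B) F Z S) (hP : Det P) (hD : 0 < D)
    (g : Fin D → Equiv.Perm (Fin n)) (x0 : Fin n × Fin m → B) {h T R w : ℕ} (h0 : 0 < h)
    (hhL : h ≤ Fintype.card (Word D m B)) {E : ℝ} (hE0 : 0 ≤ E)
    (γ : B → G) (σ : Fin (w + 2) → Fin S) (τ : Fin (w + 1) → Fin n → Option (Fin D × Fin m))
    (hE : CB γ (Fin (opn τ).card × Fin m) (2 * w + 1) E) (a : G) :
    (Nat.card {I : B × Word D m B → F // CF (fine g) x0 R (tab I) ∧ InT P g x0 h T R σ τ I ∧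
        gout g x0 R γ I = a} : ℝ) ≤
      Nat.card {I : B × Word D m B → F // CF (fine g) x0 R (tab I) ∧ InT P g x0 h T R σ τ I} / Fintype.card G +
        E * (1 / ((h : ℝ) / Fintype.card (Word D m B))) ^ (2 * (w + 1) * n) * Nat.card (B × Word D m B → F) := by
  classical
  have hW : (0 : ℝ) < Fintype.card (Word D m B) := Nat.cast_pos.2 (h0.trans_le hhL)
  have h0' : (0 : ℝ) < h := Nat.cast_pos.2 h0
  have hr : 1 ≤ 1 / ((h : ℝ) / Fintype.card (Word D m B)) := by
    rw [one_div_div, le_div_iff₀ h0', one_mul]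
    exact_mod_cast hhL
  refine type_bound_of P hP hD g x0 γ σ τ a (by positivity) ?_
  intro hh t0 E' U hU cl
  refine (cyl_bound g hh t0 (opn τ) h h0 E' U hU cl γ hE0 hE a).trans ?_
  refine add_le_add le_rfl (mul_le_mul_of_nonneg_right ?_ (Nat.cast_nonneg _))
  refine mul_le_mul_of_nonneg_left ?_ hE0
  refine pow_le_pow_right₀ hr (Nat.mul_le_mul_left _ ?_)
  exact (card_le_univ _).trans (le_of_eq (Fintype.card_fin n))

end Pool.Agent.Helper98.PB
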