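import Pool.Agent.Helper96.PB.Defs
import Pool.Agent.Helper66.NQ.Orb
import Pool.Agent.Helper98.PH.Windows
import Pool.Agent.Helper98.NK.Fix

/-!
# PB, pieces D1 and B2: windows of deterministic programs, from orbits to the inputs of one type
-/

set_option autoImplicit false
set_option linter.unusedSectionVars false

namespace Pool.Agent.Helper98.PB

open Finset Pool.Agent.Helper19.NF Pool.Agent.Helper74.NW Pool.Agent.Helper99.NQ Pool.Agent.Helper96.PB
open Pool.Agent.Helper74.NE (fine fine_apply)
open Pool.Agent.Helper96.PH (Cut Det Greedy CB opn)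
open Pool.Agent.Helper66.NQ (act act_neg act_congr cf_act val_act val_act' val_act_succ mem_free)

section windows

variable {C W Z : Type} {S : ℕ} {P : NProg C W Z S}

/-- D1: a deterministic program has at most one run of a given length. -/
theorem run_unique (hP : Det P) {I : C → W} {s t t' : Fin S} {c c' : List C} (h : P.Run I s c t)
    (h' : P.Run I s c' t') (hl : c.length = c'.length) : c = c' ∧ t = t' := Pool.Agent.Helper98.PH.det_aux hP h h' hl

theorem greedy_aux (hP : Det P) {I : C → W} {T : ℕ} {s q q' : Fin S} {x x' : List C} (h : P.Run I s x q)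
    (h' : P.Run I s x' q') (hg : Greedy P T q x) (hg' : Greedy P T q' x') (hl : x.length ≤ x'.length) :
    x = x' ∧ q = q' := by
  obtain ⟨r, hr1, hr2⟩ := run_split (x'.take x.length) (b := x'.drop x.length) (by rw [List.take_append_drop]; exact h')
  obtain ⟨h1, h2⟩ := run_unique hP h hr1 (by rw [List.length_take]; omega)
  subst h2
  cases h3 : x'.drop x.length with
  | nil =>
    have h4 := List.take_append_drop x.length x'
    rw [h3, List.append_nil, ← h1] at h4
    rw [h3] at hr2
    exact ⟨h4, Pool.Agent.Helper98.PH.run_nil hr2⟩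
  | cons c l =>
    exfalso
    rw [h3] at hr2
    obtain ⟨next, s', h5, -, -⟩ := Pool.Agent.Helper98.PH.run_cons hr2
    have h6 := hg.2 c next h5
    have h7 : Nat.card {b // b ∈ c :: x} ≤ Nat.card {b // b ∈ x'} := by
      refine Pool.Agent.Helper98.PH.card_mono fun b hb => ?_
      have h8 := List.take_append_drop x.length x'
      rw [← h8, List.mem_append, h3, ← h1]
      rcases List.mem_cons.1 hb with hb | hb
      · exact Or.inr (by rw [hb]; exact List.mem_cons_self)
      · exact Or.inl hb
    exact absurd (h7.trans hg'.1) (not_le.2 h6)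

/-- A deterministic program has at most one greedy window from a given state. -/
theorem greedy_unique (hP : Det P) {I : C → W} {T : ℕ} {s q q' : Fin S} {x x' : List C} (h : P.Run I s x q)
    (h' : P.Run I s x' q') (hg : Greedy P T q x) (hg' : Greedy P T q' x') : x = x' ∧ q = q' := by
  rcases le_total x.length x'.length with hl | hl
  · exact greedy_aux hP h h' hg hg' hl
  · obtain ⟨h1, h2⟩ := greedy_aux hP h' h hg' hg hl
    exact ⟨h1.symm, h2.symm⟩

end windows

section sub

variable {α : Type}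

theorem sub_subset (h : ℕ) (X : Finset α) : sub h X ⊆ X := by
  classical
  unfold sub
  split_ifs with hh
  · exact hh.choose_spec.1
  · exact empty_subset _

theorem card_sub {h : ℕ} {X : Finset α} (hX : h ≤ X.card) : (sub h X).card = h := by
  classical
  have hh : ∃ Y ⊆ X, Y.card = h := by
    obtain ⟨Y, h1, h2⟩ := exists_subset_card_eq hX
    exact ⟨Y, h1, h2⟩
  unfold sub
  rw [dif_pos hh]
  exact hh.choose_spec.2

end sub

section average

variable {n D m : ℕ} [NeZero m] {F B : Type} [Field F] [Fintype F] [AddCommGroup B] [Module F B] [Fintype B]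

/-- The inputs with a property, counted in the orbits. -/
theorem card_mul (g : Fin D → Equiv.Perm (Fin n)) (x0 : Fin n × Fin m → B) (i : ℕ)
    (Q : (B × Word D m B → F) → Prop) (hQ : ∀ I, Q I → CF (fine g) x0 i (tab I)) :
    Nat.card {I // Q I} * Nat.card (Ch n D m F B) =
      ∑ᶠ I : {I : B × Word D m B → F // CF (fine g) x0 i (tab I)}, Nat.card {x : Ch n D m F B // Q (act g x0 i I.1 x)} := by
  classical
  let V : Type := B × Word D m B → F
  let Y : Type := Ch n D m F B
  have hFinV : Fintype V := Fintype.ofFinite V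
  have hFinY : Fintype Y := Fintype.ofFinite Y
  let PP : Type := {p' : V × Y // CF (fine g) x0 i (tab p'.1) ∧ Q (act g x0 i p'.1 p'.2)}
  have e1 : {I : V // Q I} × Y ≃ PP :=
    { toFun := fun q => ⟨(act g x0 i q.1.1 (-q.2), q.2), cf_act (hQ _ q.1.2) _, by
        have h := act_neg (hQ _ q.1.2) (-q.2)
        rw [neg_neg] at h
        show Q (act g x0 i (act g x0 i q.1.1 (-q.2)) q.2)
        rw [h]
        exact q.1.2⟩
      invFun := fun q => (⟨act g x0 i q.1.1 q.1.2, q.2.2⟩, q.1.2)
      left_inv := by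
        rintro ⟨⟨I, hI⟩, y⟩
        have h := act_neg (hQ _ hI) (-y)
        rw [neg_neg] at h
        exact Prod.ext (Subtype.ext h) rfl
      right_inv := by
        rintro ⟨⟨I, y⟩, h1, h2⟩
        exact Subtype.ext (Prod.ext (act_neg h1 y) rfl) }
  have e2 : PP ≃ Σ I : {I : V // CF (fine g) x0 i (tab I)}, {y : Y // Q (act g x0 i I.1 y)} :=
    { toFun := fun q => ⟨⟨q.1.1, q.2.1⟩, ⟨q.1.2, q.2.2⟩⟩
      invFun := fun q => ⟨(q.1.1, q.2.1), q.1.2, q.2.2⟩
      left_inv := fun q => rfl
      right_inv := fun q => rfl }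
  have h1' : Nat.card {I : V // Q I} * Nat.card Y = Nat.card PP := by
    rw [← Nat.card_congr e1]
    exact (Nat.card_prod _ _).symm
  rw [h1', Nat.card_congr e2, Nat.card_eq_fintype_card, Fintype.card_sigma, finsum_eq_sum_of_fintype]
  refine sum_congr rfl fun I _ => ?_
  rw [Nat.card_eq_fintype_card]

/-- From orbits to inputs, for two properties. -/
theorem average2 (g : Fin D → Equiv.Perm (Fin n)) (x0 : Fin n × Fin m → B) (i : ℕ)
    (Q Q' : (B × Word D m B → F) → Prop) (hQ : ∀ I, Q I → CF (fine g) x0 i (tab I))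
    (hQ' : ∀ I, Q' I → CF (fine g) x0 i (tab I)) (c δ : ℝ) (hδ : 0 ≤ δ)
    (h5 : ∀ I : B × Word D m B → F, CF (fine g) x0 i (tab I) →
      (Nat.card {x : Ch n D m F B // Q (act g x0 i I x)} : ℝ) ≤
        Nat.card {x : Ch n D m F B // Q' (act g x0 i I x)} / c + δ * Nat.card (Ch n D m F B)) :
    (Nat.card {I // Q I} : ℝ) ≤ Nat.card {I // Q' I} / c + δ * Nat.card (B × Word D m B → F) := by
  classical
  have h1 := card_mul g x0 i Q hQ
  have h2 := card_mul g x0 i Q' hQ'
  have hFin : Fintype (B × Word D m B → F) := Fintype.ofFinite _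
  rw [finsum_eq_sum_of_fintype] at h1 h2
  have h3 : (0 : ℝ) < Nat.card (Ch n D m F B) := by
    have : Nonempty (Ch n D m F B) := ⟨0⟩
    exact_mod_cast Nat.card_pos
  refine le_of_mul_le_mul_right ?_ h3
  have h1' : (Nat.card {I // Q I} : ℝ) * Nat.card (Ch n D m F B) =
      ∑ I : {I : B × Word D m B → F // CF (fine g) x0 i (tab I)},
        (Nat.card {x : Ch n D m F B // Q (act g x0 i I.1 x)} : ℝ) := by exact_mod_cast h1
  have h2' : (Nat.card {I // Q' I} : ℝ) * Nat.card (Ch n D m F B) =
      ∑ I : {I : B × Word D m B → F // CF (fine g) x0 i (tab I)},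
        (Nat.card {x : Ch n D m F B // Q' (act g x0 i I.1 x)} : ℝ) := by exact_mod_cast h2
  rw [h1', add_mul, div_mul_eq_mul_div, h2']
  have h6 : (Fintype.card {I : B × Word D m B → F // CF (fine g) x0 i (tab I)} : ℝ) ≤
      Nat.card (B × Word D m B → F) := by
    rw [Nat.card_eq_fintype_card]
    exact_mod_cast Fintype.card_subtype_le _
  calc ∑ I : {I : B × Word D m B → F // CF (fine g) x0 i (tab I)},
        (Nat.card {x : Ch n D m F B // Q (act g x0 i I.1 x)} : ℝ)
      ≤ ∑ I : {I : B × Word D m B → F // CF (fine g) x0 i (tab I)},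
        ((Nat.card {x : Ch n D m F B // Q' (act g x0 i I.1 x)} : ℝ) / c + δ * Nat.card (Ch n D m F B)) :=
        sum_le_sum fun I _ => h5 I.1 I.2
    _ = (∑ I : {I : B × Word D m B → F // CF (fine g) x0 i (tab I)},
        (Nat.card {x : Ch n D m F B // Q' (act g x0 i I.1 x)} : ℝ)) / c +
        Fintype.card {I : B × Word D m B → F // CF (fine g) x0 i (tab I)} * (δ * Nat.card (Ch n D m F B)) := by
        rw [sum_add_distrib, sum_div, sum_const, card_univ, nsmul_eq_mul]
    _ ≤ _ := by
        refine add_le_add le_rfl ?_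
        calc (Fintype.card {I : B × Word D m B → F // CF (fine g) x0 i (tab I)} : ℝ) *
              (δ * Nat.card (Ch n D m F B)) ≤ Nat.card (B × Word D m B → F) * (δ * Nat.card (Ch n D m F B)) :=
            mul_le_mul_of_nonneg_right h6 (mul_nonneg hδ h3.le)
          _ = δ * Nat.card (B × Word D m B → F) * Nat.card (Ch n D m F B) := by ring

end average

section type

variable {n D m S : ℕ} [NeZero m] {F B G Z : Type} [Field F] [Fintype F] [AddCommGroup B] [Module F B] [Fintype B]

theorem miss_some {g : Fin D → Equiv.Perm (Fin n)} {x0 : Fin n × Fin m → B} {h i : ℕ} {I : B × Word D m B → F}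
    {V : Finset (B × Word D m B)} {v : Fin n} {c : Fin D × Fin m} (hc : miss g x0 h i I V v = some c) :
    h ≤ gap V (val (fine g) x0 (tab I) i (g c.1 v, c.2)) := by
  classical
  unfold miss at hc
  split_ifs at hc with hh
  · rw [Option.some_inj] at hc
    rw [← hc]
    exact hh.choose_spec

theorem miss_congr {g : Fin D → Equiv.Perm (Fin n)} {x0 : Fin n × Fin m → B} {h i : ℕ} {I I' : B × Word D m B → F}
    (hI : ∀ u, val (fine g) x0 (tab I') i u = val (fine g) x0 (tab I) i u)
    (V : Finset (B × Word D m B)) (v : Fin n) : miss g x0 h i I' V v = miss g x0 h i I V v := by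
  classical
  unfold miss
  have h1 : (fun c : Fin D × Fin m => h ≤ gap V (val (fine g) x0 (tab I') i (g c.1 v, c.2))) =
      (fun c : Fin D × Fin m => h ≤ gap V (val (fine g) x0 (tab I) i (g c.1 v, c.2))) := by
    funext c
    rw [hI]
  simp only [h1]

open Classical in
theorem type_bound_of [AddCommGroup G] [Fintype G] (P : NProg (B × Word D m B) F Z S) (hP : Det P) (hD : 0 < D)
    (g : Fin D → Equiv.Perm (Fin n)) (x0 : Fin n × Fin m → B) {h T R w : ℕ}
    (γ : B → G) (σ : Fin (w + 2) → Fin S) (τ : Fin (w + 1) → Fin n → Option (Fin D × Fin m)) (a : G)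
    {δ : ℝ} (hδ : 0 ≤ δ)
    (hcyl : ∀ (hh : Fin (w + 1) → Fin n → Fin D × Fin m) (t0 : Fin n × Fin m → B)
      (E : Fin (w + 1) → Finset (Ch n D m F B))
      (U : Fin (w + 1) → Ch n D m F B → Fin n → Finset (Word D m B)),
      (∀ j, ∀ x ∈ E j, ∀ u ∈ opn τ, (U j x u).card = h) →
      (∀ j, ∀ x ∈ E j, ∀ x', (∀ p l, x' p l ≠ x p l → ∃ u ∈ opn τ, pos g (hh j) u = p ∧ l ∈ U j x u) →
        x' ∈ E j ∧ ∀ u ∈ opn τ, U j x' u = U j x u) →
      ((univ.filter (fun x : Ch n D m F B => (∀ j, x ∈ E j) ∧ ∑ v, γ (t0 v + lam g x v) = a)).card : ℝ) ≤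
        (univ.filter (fun x : Ch n D m F B => ∀ j, x ∈ E j)).card / Fintype.card G + δ * Nat.card (Ch n D m F B)) :
    (Nat.card {I : B × Word D m B → F // CF (fine g) x0 R (tab I) ∧ InT P g x0 h T R σ τ I ∧
        gout g x0 R γ I = a} : ℝ) ≤
      Nat.card {I : B × Word D m B → F // CF (fine g) x0 R (tab I) ∧ InT P g x0 h T R σ τ I} / Fintype.card G +
        δ * Nat.card (B × Word D m B → F) := by
  refine average2 g x0 R (fun I => CF (fine g) x0 R (tab I) ∧ InT P g x0 h T R σ τ I ∧ gout g x0 R γ I = a)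
    (fun I => CF (fine g) x0 R (tab I) ∧ InT P g x0 h T R σ τ I) (fun I hI => hI.1) (fun I hI => hI.1) _ δ hδ ?_
  intro I hcf
  set cell : Fin n × Fin m → B := val (fine g) x0 (tab I) R with hcell
  let Win : Fin (w + 1) → Ch n D m F B → List (B × Word D m B) → Prop := fun j x c =>
    P.Run (act g x0 R I x) (σ j.castSucc) c (σ j.succ) ∧ Greedy P T (σ j.succ) c ∧
      ∀ v, miss g x0 h R (act g x0 R I x) (free c) v = τ j v
  let E : Fin (w + 1) → Finset (Ch n D m F B) := fun j => univ.filter (fun x => ∃ c, Win j x c)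
  have hmem : ∀ j x, x ∈ E j ↔ ∃ c, Win j x c := fun j x => by
    show x ∈ univ.filter (fun x => ∃ c, Win j x c) ↔ _
    rw [mem_filter]
    exact and_iff_right (mem_univ _)
  have hInT : ∀ x, InT P g x0 h T R σ τ (act g x0 R I x) ↔ ∀ j, x ∈ E j := fun x =>
    forall_congr' fun j => (hmem j x).symm
  have hw : ∀ (j : Fin (w + 1)) (x : Ch n D m F B), ∃ c : List (B × Word D m B), x ∈ E j → Win j x c := by
    intro j x
    by_cases hx : x ∈ E j
    · obtain ⟨c, hc⟩ := (hmem j x).1 hx
      exact ⟨c, fun _ => hc⟩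
    · exact ⟨[], fun h => absurd h hx⟩
  choose c hc using hw
  let hh : Fin (w + 1) → Fin n → Fin D × Fin m := fun j v => (τ j v).getD (⟨0, hD⟩, 0)
  let U : Fin (w + 1) → Ch n D m F B → Fin n → Finset (Word D m B) := fun j x u =>
    sub h (left cell (free (c j x)) (pos g (hh j) u))
  have key := hcyl hh (val (fine g) x0 (tab I) (R + 1)) E U ?_ ?_
  · have e1 : Nat.card {x : Ch n D m F B // CF (fine g) x0 R (tab (act g x0 R I x)) ∧
        InT P g x0 h T R σ τ (act g x0 R I x) ∧ gout g x0 R γ (act g x0 R I x) = a} =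
        (univ.filter (fun x : Ch n D m F B => (∀ j, x ∈ E j) ∧
          ∑ v, γ (val (fine g) x0 (tab I) (R + 1) v + lam g x v) = a)).card := by
      rw [Nat.card_eq_fintype_card, Fintype.card_subtype]
      congr 1
      ext x
      rw [mem_filter, mem_filter, hInT]
      have h1 : gout g x0 R γ (act g x0 R I x) = ∑ v, γ (val (fine g) x0 (tab I) (R + 1) v + lam g x v) := by
        unfold gout
        exact sum_congr rfl fun v _ => by rw [val_act_succ hcf]
      rw [h1]
      exact ⟨fun h2 => ⟨h2.1, h2.2.2⟩, fun h2 => ⟨h2.1, cf_act hcf _, h2.2⟩⟩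
    have e2 : Nat.card {x : Ch n D m F B // CF (fine g) x0 R (tab (act g x0 R I x)) ∧
        InT P g x0 h T R σ τ (act g x0 R I x)} = (univ.filter (fun x : Ch n D m F B => ∀ j, x ∈ E j)).card := by
      rw [Nat.card_eq_fintype_card, Fintype.card_subtype]
      congr 1
      ext x
      rw [mem_filter, mem_filter, hInT]
      exact ⟨fun h2 => ⟨h2.1, h2.2.2⟩, fun h2 => ⟨h2.1, cf_act hcf _, h2.2⟩⟩
    rw [e1, e2]
    exact key
  · intro j x hx u hu
    refine card_sub ?_
    obtain ⟨-, -, h3⟩ := hc j x hx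
    have h4 : (τ j u).isSome := (mem_filter.1 hu).2 j
    obtain ⟨cc, hcc⟩ := Option.isSome_iff_exists.1 h4
    have h5 := miss_some ((h3 u).trans hcc)
    rw [val_act hcf _ le_rfl] at h5
    have h6 : pos g (hh j) u = (g cc.1 u, cc.2) := by
      show (g ((τ j u).getD (⟨0, hD⟩, 0)).1 u, ((τ j u).getD (⟨0, hD⟩, 0)).2) = _
      rw [hcc]
      rfl
    rw [h6]
    exact h5
  · intro j x hx x' hx'
    obtain ⟨h1, h2, h3⟩ := hc j x hx
    have hr : P.Run (act g x0 R I x') (σ j.castSucc) (c j x) (σ j.succ) := by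
      refine run_congr h1 fun z hz => act_congr hcf _ _ z fun q hq => ?_
      by_contra hne
      obtain ⟨u, -, h4, h5⟩ := hx' q z.2 (Ne.symm hne)
      have h6 := sub_subset _ _ h5
      unfold left at h6
      rw [mem_filter] at h6
      have h7 := h6.2
      rw [h4, hcell, hq, mem_free] at h7
      exact h7 hz
    have hW : Win j x' (c j x) := by
      refine ⟨hr, h2, fun v => ?_⟩
      rw [← h3 v]
      exact miss_congr (fun u => by rw [val_act hcf _ le_rfl, val_act hcf _ le_rfl]) _ v
    have hE' : x' ∈ E j := (hmem j x').2 ⟨_, hW⟩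
    have hc' : c j x' = c j x := (greedy_unique hP (hc j x' hE').1 hr (hc j x' hE').2.1 h2).1
    refine ⟨hE', fun u _ => ?_⟩
    show sub h (left cell (free (c j x')) (pos g (hh j) u)) = _
    rw [hc']

end type

end Pool.Agent.Helper98.PB
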